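import Mathlib
import Pool.Agent.X199.Spiral

set_option autoImplicit false

/-! A quasiconformal map raising Nagata dimension to full dimension, for every `n ≥ 3`. -/

namespace Pool.Agent.Results.MP_a3803f_an.RaiseNagata

open Set Filter Topology Pool.Agent.X199.Nagata Pool.Agent.X199.Spiral

noncomputable section

/-- `f : Ω → Ω'` is a quasiconformal homeomorphism (metric definition). -/
def IsQuasiconformal {n : ℕ} (f : EuclideanSpace ℝ (Fin n) → EuclideanSpace ℝ (Fin n))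
    (Ω Ω' : Set (EuclideanSpace ℝ (Fin n))) : Prop :=
  BijOn f Ω Ω' ∧ ContinuousOn f Ω ∧ ContinuousOn (Function.invFunOn f Ω) Ω' ∧
  ∃ H : ℝ, ∀ x ∈ Ω, ∃ r₀ : ℝ, 0 < r₀ ∧ Metric.ball x r₀ ⊆ Ω ∧ ∀ r : ℝ, 0 < r → r < r₀ →
    ∀ y z : EuclideanSpace ℝ (Fin n), dist y x = r → dist z x = r →
      dist (f y) (f x) ≤ H * dist (f z) (f x)

/-- `Ω` is a domain: a nonempty connected open set -/
def IsDomain' {n : ℕ} (Ω : Set (EuclideanSpace ℝ (Fin n))) : Prop :=
  IsOpen Ω ∧ IsConnected Ω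

variable {m : ℕ}

def fm (x : EuclideanSpace ℝ (Fin (m + 2))) : EuclideanSpace ℝ (Fin (m + 2)) :=
  WithLp.toLp 2 (Matrix.vecCons (Fs (x 0) (x 1)).re
    (Matrix.vecCons (-(Fs (x 0) (x 1)).im) (fun i : Fin m => x i.succ.succ)))

theorem fm0 (x : EuclideanSpace ℝ (Fin (m + 2))) : fm x 0 = (Fs (x 0) (x 1)).re := rfl

theorem fm1 (x : EuclideanSpace ℝ (Fin (m + 2))) : fm x 1 = -(Fs (x 0) (x 1)).im := rfl

theorem fms (x : EuclideanSpace ℝ (Fin (m + 2))) (i : Fin m) :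
    fm x i.succ.succ = x i.succ.succ := rfl

theorem nsq (z : EuclideanSpace ℝ (Fin (m + 2))) :
    ‖z‖ ^ 2 = z 0 ^ 2 + z 1 ^ 2 + ∑ i : Fin m, z i.succ.succ ^ 2 := by
  rw [EuclideanSpace.real_norm_sq_eq, Fin.sum_univ_succ, Fin.sum_univ_succ]
  simp only [Fin.succ_zero_eq_one]
  ring

theorem ext2 {x y : EuclideanSpace ℝ (Fin (m + 2))} (h0 : x 0 = y 0) (h1 : x 1 = y 1)
    (h2 : ∀ i : Fin m, x i.succ.succ = y i.succ.succ) : x = y := by
  ext i
  refine Fin.cases h0 (fun j => ?_) i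
  refine Fin.cases h1 (fun k => ?_) j
  exact h2 k

def Om (m : ℕ) : Set (EuclideanSpace ℝ (Fin (m + 2))) := {x | 1 / 2 < x 0 ∧ 0 < x 1 ∧ x 1 < 1}

theorem Om_open : IsOpen (Om m) := by
  have h0 : Continuous fun x : EuclideanSpace ℝ (Fin (m + 2)) => x 0 := by fun_prop
  have h1 : Continuous fun x : EuclideanSpace ℝ (Fin (m + 2)) => x 1 := by fun_prop
  exact (isOpen_lt continuous_const h0).inter
    ((isOpen_lt continuous_const h1).inter (isOpen_lt h1 continuous_const))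

theorem Om_conn : IsConnected (Om m) := by
  refine ⟨⟨WithLp.toLp 2 (Matrix.vecCons 1 (Matrix.vecCons (1 / 2) (fun _ => 0))), ?_, ?_, ?_⟩, ?_⟩
  · show (1 / 2 : ℝ) < 1
    norm_num
  · show (0 : ℝ) < 1 / 2
    norm_num
  · show (1 / 2 : ℝ) < 1
    norm_num
  · apply Convex.isPreconnected
    rintro x ⟨hx0, hx1, hx2⟩ y ⟨hy0, hy1, hy2⟩ a b ha hb hab
    refine ⟨?_, ?_, ?_⟩
    · show 1 / 2 < a * x 0 + b * y 0
      rcases ha.eq_or_lt with rfl | ha
      · have : b = 1 := by linarith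
        rw [this]; linarith
      · nlinarith
    · show 0 < a * x 1 + b * y 1
      rcases ha.eq_or_lt with rfl | ha
      · have : b = 1 := by linarith
        rw [this]; linarith
      · nlinarith [mul_pos ha hx1, mul_nonneg hb hy1.le]
    · show a * x 1 + b * y 1 < 1
      rcases ha.eq_or_lt with rfl | ha
      · have : b = 1 := by linarith
        rw [this]; linarith
      · nlinarith

theorem dist_fm (x y : EuclideanSpace ℝ (Fin (m + 2))) :
    ‖fm x - fm y‖ ^ 2 = ‖Fs (x 0) (x 1) - Fs (y 0) (y 1)‖ ^ 2 +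
      ∑ i : Fin m, (x i.succ.succ - y i.succ.succ) ^ 2 := by
  rw [nsq, Complex.sq_norm, Complex.normSq_apply]
  simp only [PiLp.sub_apply, fm0, fm1, fms, Complex.sub_re, Complex.sub_im]
  ring

theorem dist_id (x y : EuclideanSpace ℝ (Fin (m + 2))) :
    ‖x - y‖ ^ 2 = ((x 0 - y 0) ^ 2 + (x 1 - y 1) ^ 2) +
      ∑ i : Fin m, (x i.succ.succ - y i.succ.succ) ^ 2 := by
  rw [nsq]
  simp only [PiLp.sub_apply]

theorem local_bilip {x y : EuclideanSpace ℝ (Fin (m + 2))} (hx : x ∈ Om m) (hy : y ∈ Om m)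
    (hd : ‖x - y‖ ≤ 1 / 2) : ‖fm x - fm y‖ ≤ 4 * ‖x - y‖ ∧ ‖x - y‖ ≤ 4 * ‖fm x - fm y‖ := by
  have h0 : |x 0 - y 0| ≤ 1 / 2 := by
    have := coord_le (x - y) 0
    exact this.trans hd
  obtain ⟨a1, a2⟩ := loc hx.1 hy.1 hx.2.1 hx.2.2 hy.2.1 hy.2.2 h0
  have hS : 0 ≤ ∑ i : Fin m, (x i.succ.succ - y i.succ.succ) ^ 2 :=
    Finset.sum_nonneg fun i _ => sq_nonneg _
  have e1 := dist_fm x y
  have e2 := dist_id x y
  constructor
  · apply abs_le_of_sq_le_sq' _ (by positivity) |>.2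
    rw [mul_pow]
    linarith
  · apply abs_le_of_sq_le_sq' _ (by positivity) |>.2
    rw [mul_pow]
    linarith

theorem fm_inj : InjOn (fm (m := m)) (Om m) := by
  intro x hx y hy h
  have h0 : fm x 0 = fm y 0 := by rw [h]
  have h1 : fm x 1 = fm y 1 := by rw [h]
  rw [fm0, fm0] at h0
  rw [fm1, fm1, neg_inj] at h1
  obtain ⟨a, b⟩ := Fs_inj hx.1 hy.1 hx.2.1 hx.2.2 hy.2.1 hy.2.2 (Complex.ext h0 h1)
  exact ext2 a b fun i => by rw [← fms x i, ← fms y i, h]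

theorem fm_cont : Continuous (fm (m := m)) := by
  have h : Continuous fun x : EuclideanSpace ℝ (Fin (m + 2)) => Fs (x 0) (x 1) := by
    unfold Fs
    fun_prop
  unfold fm
  refine (PiLp.continuous_toLp 2 _).comp ?_
  refine continuous_pi fun i => ?_
  refine Fin.cases ?_ (fun j => ?_) i
  · exact Complex.continuous_re.comp h
  refine Fin.cases ?_ (fun k => ?_) j
  · exact (Complex.continuous_im.comp h).neg
  · show Continuous fun x : EuclideanSpace ℝ (Fin (m + 2)) => x k.succ.succ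
    fun_prop

/-- local continuous inverse -/
theorem fm_local_inv {x : EuclideanSpace ℝ (Fin (m + 2))} (hx : x ∈ Om m) :
    ∃ g : EuclideanSpace ℝ (Fin (m + 2)) → EuclideanSpace ℝ (Fin (m + 2)),
      ContinuousAt g (fm x) ∧ g (fm x) = x ∧ ∀ᶠ w in 𝓝 (fm x), fm (g w) = w := by
  obtain ⟨G, hG1, hG2, hG3⟩ := Fs_local_inv (u := x 0) (v := x 1) hx.1 hx.2.1
  let p : EuclideanSpace ℝ (Fin (m + 2)) → ℂ := fun w => ⟨w 0, -w 1⟩
  have hp : Continuous p := by
    have : p = fun w => ((w 0 : ℝ) : ℂ) + ((-w 1 : ℝ) : ℂ) * Complex.I := by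
      funext w
      exact Complex.mk_eq_add_mul_I _ _
    rw [this]
    fun_prop
  have hpx : p (fm x) = Fs (x 0) (x 1) := by
    apply Complex.ext
    · rfl
    · show - -(Fs (x 0) (x 1)).im = _
      rw [neg_neg]
  have hGp : ContinuousAt (fun w => G (p w)) (fm x) := by
    apply ContinuousAt.comp (f := p) (g := G)
    · rw [hpx]; exact hG1
    · exact hp.continuousAt
  refine ⟨fun w => WithLp.toLp 2 (Matrix.vecCons (G (p w)).1
    (Matrix.vecCons (G (p w)).2 (fun i : Fin m => w i.succ.succ))), ?_, ?_, ?_⟩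
  · refine (PiLp.continuous_toLp 2 _).continuousAt.comp ?_
    refine continuousAt_pi.mpr fun i => ?_
    refine Fin.cases ?_ (fun j => ?_) i
    · exact hGp.fst
    refine Fin.cases ?_ (fun k => ?_) j
    · exact hGp.snd
    · show ContinuousAt (fun w : EuclideanSpace ℝ (Fin (m + 2)) => w k.succ.succ) (fm x)
      fun_prop
  · beta_reduce
    rw [hpx, hG2]
    exact ext2 rfl rfl fun i => rfl
  · have h1 : ∀ᶠ w in 𝓝 (fm x), Fs (G (p w)).1 (G (p w)).2 = p w := by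
      have : Tendsto p (𝓝 (fm x)) (𝓝 (Fs (x 0) (x 1))) := by
        rw [← hpx]; exact hp.continuousAt
      exact this.eventually hG3
    filter_upwards [h1] with w hw
    refine ext2 ?_ ?_ fun i => rfl
    · show (Fs (G (p w)).1 (G (p w)).2).re = w 0
      rw [hw]
    · show -(Fs (G (p w)).1 (G (p w)).2).im = w 1
      rw [hw]
      show - -w 1 = w 1
      rw [neg_neg]

theorem image_open : IsOpen (fm '' Om m) := by
  rw [isOpen_iff_mem_nhds]
  rintro _ ⟨x, hx, rfl⟩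
  obtain ⟨g, hg1, hg2, hg3⟩ := fm_local_inv hx
  have h1 : ∀ᶠ w in 𝓝 (fm x), g w ∈ Om m := by
    apply hg1
    rw [hg2]
    exact Om_open.mem_nhds hx
  filter_upwards [h1, hg3] with w h1 h2
  exact ⟨g w, h1, h2⟩

theorem qc : IsQuasiconformal (fm (m := m)) (Om m) (fm '' Om m) := by
  refine ⟨fm_inj.bijOn_image, fm_cont.continuousOn, ?_, 16, ?_⟩
  · rintro _ ⟨x, hx, rfl⟩
    obtain ⟨g, hg1, hg2, hg3⟩ := fm_local_inv hx
    apply ContinuousAt.continuousWithinAt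
    refine hg1.congr ?_
    have h1 : ∀ᶠ w in 𝓝 (fm x), g w ∈ Om m := by
      apply hg1
      rw [hg2]
      exact Om_open.mem_nhds hx
    filter_upwards [h1, hg3] with w h1 h2
    have h3 : w ∈ fm '' Om m := ⟨g w, h1, h2⟩
    apply fm_inj h1 (Function.invFunOn_mem h3)
    rw [h2, Function.invFunOn_eq h3]
  · intro x hx
    obtain ⟨ε, hε, hb⟩ := Metric.isOpen_iff.mp Om_open x hx
    refine ⟨min ε (1 / 2), lt_min hε (by norm_num),
      (Metric.ball_subset_ball (min_le_left _ _)).trans hb, ?_⟩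
    intro r hr hr2 y z hy hz
    have hr3 : r < ε := hr2.trans_le (min_le_left _ _)
    have hr4 : r < 1 / 2 := hr2.trans_le (min_le_right _ _)
    have hyO : y ∈ Om m := hb (by rw [Metric.mem_ball, hy]; exact hr3)
    have hzO : z ∈ Om m := hb (by rw [Metric.mem_ball, hz]; exact hr3)
    rw [dist_eq_norm] at hy hz ⊢
    rw [dist_eq_norm]
    have a1 := (local_bilip hyO hx (by rw [hy]; exact hr4.le)).1
    have a2 := (local_bilip hzO hx (by rw [hz]; exact hr4.le)).2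
    rw [hy] at a1
    rw [hz] at a2
    linarith

def Es (m : ℕ) : Set (EuclideanSpace ℝ (Fin (m + 2))) := {x | x ∈ Om m ∧ x 1 = 1 / 2}

theorem dimE : NagataDimLE (Es m) (m + 1) := by
  have h := upper (Finset.univ.erase (1 : Fin (m + 2))) (Es m) (by
    intro x hx y hy i hi
    have : i = 1 := by
      by_contra hc
      exact hi (Finset.mem_erase.mpr ⟨hc, Finset.mem_univ _⟩)
    rw [this, hx.2, hy.2])
  rwa [Finset.card_erase_of_mem (Finset.mem_univ _), Finset.card_univ, Fintype.card_fin] at h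

theorem dense (y : EuclideanSpace ℝ (Fin (m + 2))) (hy : ∀ i, (10 : ℝ) ≤ y i) :
    ∃ x ∈ fm '' Es m, dist x y ≤ 7 := by
  obtain ⟨z, hz⟩ : ∃ z : ℂ, z = ⟨y 0, -y 1⟩ := ⟨_, rfl⟩
  have hzn : 10 ≤ ‖z‖ := by
    have h1 := Complex.abs_re_le_norm z
    have h2 : z.re = y 0 := by rw [hz]
    rw [h2] at h1
    exact (hy 0).trans ((le_abs_self _).trans h1)
  obtain ⟨k, hk⟩ : ∃ k : ℤ, k = ⌊(‖z‖ - 1 / 2 - z.arg) / (2 * Real.pi)⌋ := ⟨_, rfl⟩
  obtain ⟨θ, hθ⟩ : ∃ θ : ℝ, θ = z.arg + k * (2 * Real.pi) := ⟨_, rfl⟩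
  have hpi := Real.pi_pos
  have hpi2 := Real.pi_lt_d2
  have b1 : θ ≤ ‖z‖ - 1 / 2 := by
    have : (k : ℝ) ≤ (‖z‖ - 1 / 2 - z.arg) / (2 * Real.pi) := by
      rw [hk]; exact Int.floor_le _
    rw [le_div_iff₀ (by positivity)] at this
    linarith
  have b2 : ‖z‖ - 1 / 2 - 2 * Real.pi < θ := by
    have : (‖z‖ - 1 / 2 - z.arg) / (2 * Real.pi) < k + 1 := by
      rw [hk]; exact Int.lt_floor_add_one _
    rw [div_lt_iff₀ (by positivity)] at this
    linarith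
  have hθ1 : 1 < θ := by linarith
  have hexp : Complex.exp ((θ : ℝ) * Complex.I) = Complex.exp ((z.arg : ℝ) * Complex.I) := by
    have e : ((θ : ℝ) : ℂ) * Complex.I = (z.arg : ℝ) * Complex.I + k * (2 * Real.pi * Complex.I) := by
      rw [hθ]
      push_cast
      ring
    rw [e]
    exact Complex.exp_periodic.int_mul k _
  have hF : Fs (θ ^ 2 / 2) (1 / 2) - z = ((θ + 1 / 2 - ‖z‖ : ℝ) : ℂ) * Complex.exp ((z.arg : ℝ) * Complex.I) := by
    unfold Fs
    rw [show 2 * (θ ^ 2 / 2) = θ ^ 2 by ring, Real.sqrt_sq (by linarith), hexp]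
    have h := Complex.norm_mul_exp_arg_mul_I z
    push_cast
    linear_combination h
  have hFn : ‖Fs (θ ^ 2 / 2) (1 / 2) - z‖ ^ 2 ≤ 7 ^ 2 := by
    rw [hF, norm_mul, Complex.norm_exp_ofReal_mul_I, mul_one, Complex.norm_real, Real.norm_eq_abs,
      sq_abs]
    nlinarith
  let x : EuclideanSpace ℝ (Fin (m + 2)) :=
    WithLp.toLp 2 (Matrix.vecCons (θ ^ 2 / 2) (Matrix.vecCons (1 / 2) (fun i : Fin m => y i.succ.succ)))
  have hx0 : x 0 = θ ^ 2 / 2 := rfl
  have hx1 : x 1 = 1 / 2 := rfl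
  have hxs : ∀ i : Fin m, x i.succ.succ = y i.succ.succ := fun i => rfl
  refine ⟨fm x, ⟨x, ⟨⟨?_, ?_, ?_⟩, hx1⟩, rfl⟩, ?_⟩
  · rw [hx0]; nlinarith
  · rw [hx1]; norm_num
  · rw [hx1]; norm_num
  · rw [dist_eq_norm]
    apply abs_le_of_sq_le_sq' _ (by norm_num) |>.2
    rw [nsq]
    simp only [PiLp.sub_apply, fm0, fm1, fms, hxs, sub_self]
    rw [hx0, hx1]
    have e : ‖Fs (θ ^ 2 / 2) (1 / 2) - z‖ ^ 2 = ((Fs (θ ^ 2 / 2) (1 / 2)).re - y 0) ^ 2 +
        (-(Fs (θ ^ 2 / 2) (1 / 2)).im - y 1) ^ 2 := by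
      rw [Complex.sq_norm, Complex.normSq_apply, Complex.sub_re, Complex.sub_im, hz]
      simp only
      ring
    rw [← e]
    simpa using hFn

/-- For every `n ≥ 3` there are domains `Ω, Ω' ⊆ ℝⁿ`, a quasiconformal homeomorphism
`f : Ω → Ω'` and a set `E ⊆ Ω` with `dim_N E ≤ n - 1` and `dim_N f(E) = n`. -/
theorem result : ∀ n : ℕ, 3 ≤ n →
    ∃ (Ω Ω' : Set (EuclideanSpace ℝ (Fin n)))
      (f : EuclideanSpace ℝ (Fin n) → EuclideanSpace ℝ (Fin n))
      (E : Set (EuclideanSpace ℝ (Fin n))),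
      IsDomain' Ω ∧ IsDomain' Ω' ∧ IsQuasiconformal f Ω Ω' ∧ E ⊆ Ω ∧
      NagataDimLE E (n - 1) ∧ NagataDimEq (f '' E) n := by
  intro n hn
  obtain ⟨m, rfl⟩ : ∃ m, n = m + 2 := ⟨n - 2, by omega⟩
  refine ⟨Om m, fm '' Om m, fm, Es m, ⟨Om_open, Om_conn⟩,
    ⟨image_open, Om_conn.image _ fm_cont.continuousOn⟩, qc, fun x hx => hx.1, dimE, ?_, ?_⟩
  · have h := upper (Finset.univ : Finset (Fin (m + 2))) (fm '' Es m) (by
      intro x _ y _ i hi
      exact absurd (Finset.mem_univ i) hi)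
    rwa [Finset.card_univ, Fintype.card_fin] at h
  · intro e he
    by_contra hc
    exact lower (n := m + 2) (by omega) (fm '' Es m) 7 10 (by norm_num) dense
      (NagataDimLE.mono (by omega) he)

end

end Pool.Agent.Results.MP_a3803f_an.RaiseNagata
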